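import Pool.Agent.Q88.MD.Stm

/-!
# Project MD: the exceptional parameters (job BAD)
-/

set_option autoImplicit false

open MeasureTheory Set Filter Topology
open scoped ENNReal NNReal

noncomputable section

namespace Pool.Agent.Q186.MD

open Pool.Agent.Q88.MD

lemma dk_lt {n : ℕ} {x : ℝ} (hx : x ∈ Ico (0 : ℝ) 1) : dk n x < 2 ^ n := by
  unfold dk
  have h2 : (0 : ℝ) < 2 ^ n := by positivity
  rw [Nat.floor_lt (mul_nonneg h2.le hx.1)]
  push_cast
  nlinarith [hx.2]

lemma mem_dy {n : ℕ} {x : ℝ} (hx : 0 ≤ x) : x ∈ dy n (dk n x) := by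
  unfold dy dk
  have h2 : (0 : ℝ) < 2 ^ n := by positivity
  constructor
  · rw [div_le_iff₀ h2]
    have := Nat.floor_le (mul_nonneg h2.le hx)
    linarith
  · rw [lt_div_iff₀ h2]
    have := Nat.lt_floor_add_one ((2 : ℝ) ^ n * x)
    linarith

lemma dk_of_mem {n k : ℕ} {x : ℝ} (hx : x ∈ dy n k) : dk n x = k := by
  unfold dy at hx
  unfold dk
  have h2 : (0 : ℝ) < 2 ^ n := by positivity
  obtain ⟨h3, h4⟩ := hx
  rw [div_le_iff₀ h2] at h3
  rw [lt_div_iff₀ h2] at h4
  rw [Nat.floor_eq_iff (by nlinarith [Nat.cast_nonneg (α := ℝ) k])]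
  constructor <;> linarith

lemma dy_sub {n k : ℕ} (hk : k < 2 ^ n) : dy n k ⊆ Ico (0 : ℝ) 1 := by
  intro x hx
  unfold dy at hx
  have h2 : (0 : ℝ) < 2 ^ n := by positivity
  refine ⟨le_trans (by positivity) hx.1, lt_of_lt_of_le hx.2 ?_⟩
  rw [div_le_one h2]
  exact_mod_cast hk

lemma measurable_dk (n : ℕ) : Measurable (dk n) := by
  unfold dk
  exact Nat.measurable_floor.comp (measurable_const.mul measurable_id)

/-- Job BAD. -/
theorem bad (h : S_spos) (h1 : S_mas) (h2 : S_pol) (h3 : S_lgm) (h4 : S_pzg) : S_bad := by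
  intro lam gam q hl hg hq f μ hf hμ he hl2
  have hg' : 0 < gam - 1 := by linarith
  have hprob : IsProbabilityMeasure μ := hμ.1
  have hlog2 : 0 < Real.log 2 := Real.log_pos (by norm_num)
  have hl0 : 0 < lam := by linarith
  have hHpos : 0 ≤ Real.binEntropy (1 / lam) :=
    Real.binEntropy_nonneg (by positivity) (by rw [div_le_one hl0]; exact hl.le)
  have hHlt : Real.binEntropy (1 / lam) < Real.log 2 := by
    rw [Real.binEntropy_lt_log_two]
    intro hc
    apply hl2
    field_simp at hc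
    linarith
  set H := Real.binEntropy (1 / lam) with hH
  set s := H / Real.log 2 with hs
  have hs0 : 0 ≤ s := div_nonneg hHpos hlog2.le
  have hs1 : s < 1 := (div_lt_one hlog2).mpr hHlt
  set l := Real.log (lam - 1) with hldef
  have hl_ne : l ≠ 0 := by
    intro hc
    rw [hldef, Real.log_eq_zero] at hc
    rcases hc with hc | hc | hc
    · linarith
    · exact hl2 (by linarith)
    · linarith
  obtain ⟨ε, hε, hlε⟩ : ∃ ε : ℝ, (ε = 1 ∨ ε = -1) ∧ l = |l| * ε := by
    rcases lt_or_gt_of_ne hl_ne with hc | hc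
    · exact ⟨-1, Or.inr rfl, by rw [abs_of_neg hc]; ring⟩
    · exact ⟨1, Or.inl rfl, by rw [abs_of_pos hc]; ring⟩
  have hlabs : 0 < |l| := abs_pos.mpr hl_ne
  obtain ⟨C, hC, hlgm⟩ := h3 (gam - 1) lam q hg' hl hq he
  obtain ⟨c, hc, hpzg⟩ := h4 (gam - 1) lam q hg' hl hq he ε hε
  set E : Set ℝ := {x | x ∈ Ico (0 : ℝ) 1 ∧
    ∀ B : ℕ, ∃ n : ℕ, ENNReal.ofReal (B * 2 ^ (-(n * s))) ≤ μ (dy n (dk n x))} with hE
  have hEsub : E ⊆ Ico (0 : ℝ) 1 := fun x hx => hx.1
  have hmeasμ : ∀ n, Measurable (fun x => μ (dy n (dk n x))) := by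
    intro n
    exact (measurable_of_countable (fun k : ℕ => μ (dy n k))).comp (measurable_dk n)
  have hEmeas : MeasurableSet E := by
    have : E = Ico (0 : ℝ) 1 ∩ ⋂ B : ℕ, ⋃ n : ℕ,
        {x | ENNReal.ofReal (B * 2 ^ (-(n * s))) ≤ μ (dy n (dk n x))} := by
      ext x
      simp only [hE, Set.mem_ofPred_eq, mem_inter_iff, mem_iInter, mem_iUnion]
    rw [this]
    refine measurableSet_Ico.inter (MeasurableSet.iInter fun B => MeasurableSet.iUnion fun n => ?_)
    exact measurableSet_le measurable_const (hmeasμ n)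
  have hpolar : Polar s E := h2 s ⟨hs0, hs1⟩ μ inferInstance E hEsub hEmeas (fun x hx => hx.2)
  refine ⟨E, hEsub.trans Ico_subset_Icc_self, hEmeas, hpolar, ?_⟩
  -- the sets `A n`
  set A : ℕ → Set ℝ := fun n =>
    {x | x ∈ Ico (0 : ℝ) 1 ∧ c * Real.sqrt n ≤ ε * WW lam n (dk n x)} with hA
  have hAmeas : ∀ n, MeasurableSet (A n) := by
    intro n
    have : A n = Ico (0 : ℝ) 1 ∩ {x | c * Real.sqrt n ≤ ε * WW lam n (dk n x)} := rfl
    rw [this]
    refine measurableSet_Ico.inter (measurableSet_le measurable_const ?_)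
    exact (measurable_of_countable (fun k : ℕ => ε * WW lam n k)).comp (measurable_dk n)
  have hAμ : ∀ᶠ n in atTop, ENNReal.ofReal c ≤ μ (A n) := by
    filter_upwards [hpzg] with n hn
    have hsub : (⋃ k ∈ (Finset.range (2 ^ n)).filter
        (fun k => c * Real.sqrt n ≤ ε * WW lam n k), dy n k) ⊆ A n := by
      intro x hx
      simp only [mem_iUnion, Finset.mem_filter, Finset.mem_range] at hx
      obtain ⟨k, ⟨hk, hk2⟩, hx⟩ := hx
      refine ⟨dy_sub hk hx, ?_⟩
      rw [dk_of_mem hx]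
      exact hk2
    refine le_trans ?_ (measure_mono hsub)
    rw [measure_biUnion_finset]
    · rw [Finset.sum_congr rfl (fun k hk => h1 lam gam q hl.le hg hq.le f μ hf hμ n k
        (Finset.mem_range.mp (Finset.mem_filter.mp hk).1)),
        ← ENNReal.ofReal_sum_of_nonneg
          (fun k _ => ((h (gam - 1) lam q hg' hl.le hq.le n).1 k).2.le)]
      exact ENNReal.ofReal_le_ofReal hn
    · intro i _ j _ hij
      refine Set.disjoint_left.mpr fun x hxi hxj => hij ?_
      rw [← dk_of_mem hxi, ← dk_of_mem hxj]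
    · intro k _
      exact measurableSet_Ico
  set U : ℕ → Set ℝ := fun m => ⋃ n ∈ Ici m, A n with hU
  have hUanti : Antitone U := by
    intro m m' hm x hx
    simp only [hU, mem_iUnion] at hx ⊢
    obtain ⟨n, hn, hx⟩ := hx
    exact ⟨n, le_trans hm hn, hx⟩
  have hUmeas : ∀ m, MeasurableSet (U m) := fun m =>
    MeasurableSet.iUnion fun n => MeasurableSet.iUnion fun _ => hAmeas n
  have hUμ : ∀ m, ENNReal.ofReal c ≤ μ (U m) := by
    intro m
    obtain ⟨n, hn, hn2⟩ := (hAμ.and (eventually_ge_atTop m)).exists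
    refine le_trans hn (measure_mono ?_)
    intro x hx
    simp only [hU, mem_iUnion]
    exact ⟨n, hn2, hx⟩
  have hlim : ENNReal.ofReal c ≤ μ (⋂ m, U m) := by
    have := tendsto_measure_iInter_atTop (μ := μ) (fun m => (hUmeas m).nullMeasurableSet) hUanti
      ⟨0, measure_ne_top μ _⟩
    exact ge_of_tendsto' this hUμ
  have hsubE : (⋂ m, U m) ⊆ E := by
    intro x hx
    simp only [hU, mem_iInter, mem_iUnion] at hx
    have hx01 : x ∈ Ico (0 : ℝ) 1 := by
      obtain ⟨n, -, hn⟩ := hx 0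
      exact hn.1
    refine ⟨hx01, fun B => ?_⟩
    -- choose a large level
    have htend : Tendsto (fun n : ℕ => Real.exp (|l| * (c * Real.sqrt n) - C)) atTop atTop := by
      apply Real.tendsto_exp_atTop.comp
      apply tendsto_atTop_add_const_right
      apply Tendsto.const_mul_atTop hlabs
      apply Tendsto.const_mul_atTop hc
      exact Real.tendsto_sqrt_atTop.comp tendsto_natCast_atTop_atTop
    obtain ⟨m, hm⟩ := (htend.eventually_ge_atTop (B : ℝ)).exists_forall_of_atTop
    obtain ⟨n, hn, hxn⟩ := hx m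
    refine ⟨n, ?_⟩
    have hBn := hm n hn
    have hk := dk_lt (n := n) hx01
    rw [h1 lam gam q hl.le hg hq.le f μ hf hμ n _ hk]
    apply ENNReal.ofReal_le_ofReal
    have hms : 0 < ms (gam - 1) lam q n (dk n x) :=
      ((h (gam - 1) lam q hg' hl.le hq.le n).1 (dk n x)).2
    have hlg := (abs_le.mp (hlgm n (dk n x))).1
    have hW : |l| * (c * Real.sqrt n) ≤ l * WW lam n (dk n x) := by
      have h5 := mul_le_mul_of_nonneg_left hxn.2 hlabs.le
      calc |l| * (c * Real.sqrt n) ≤ |l| * (ε * WW lam n (dk n x)) := h5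
        _ = l * WW lam n (dk n x) := by
          rw [← mul_assoc, ← hlε]
    have hpow : (2 : ℝ) ^ (-(n * s)) = Real.exp (-(n : ℝ) * H) := by
      rw [Real.rpow_def_of_pos (by norm_num)]
      congr 1
      rw [hs]
      field_simp
    rw [hpow]
    calc (B : ℝ) * Real.exp (-(n : ℝ) * H)
        ≤ Real.exp (|l| * (c * Real.sqrt n) - C) * Real.exp (-(n : ℝ) * H) :=
          mul_le_mul_of_nonneg_right hBn (Real.exp_pos _).le
      _ = Real.exp (|l| * (c * Real.sqrt n) - C + -(n : ℝ) * H) := by rw [← Real.exp_add]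
      _ ≤ Real.exp (Real.log (ms (gam - 1) lam q n (dk n x))) := by
          apply Real.exp_le_exp.mpr
          linarith
      _ = ms (gam - 1) lam q n (dk n x) := Real.exp_log hms
  exact lt_of_lt_of_le (ENNReal.ofReal_pos.mpr hc) (hlim.trans (measure_mono hsubE))

end Pool.Agent.Q186.MD
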