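import Pool.Agent.Q88.MD.Stm

/-!
# Project MD: the number theta zero (jobs THZ, THR, THB)
-/

set_option autoImplicit false

open MeasureTheory Set Filter Topology
open scoped ENNReal NNReal

noncomputable section

namespace Pool.Agent.Q186.MD

open Pool.Agent.Q88.MD

lemma pz_star {g lam : ℝ} (hg : 0 < g) (hl : 1 < lam) : pz g (g / (lam - 1)) = 1 / lam := by
  unfold pz
  have h1 : (lam - 1) ≠ 0 := by linarith
  have h2 : lam ≠ 0 := by linarith
  have h3 : g ≠ 0 := hg.ne'
  have h4 : g / (lam - 1) + g = g * lam / (lam - 1) := by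
    field_simp
    ring
  rw [h4]
  field_simp

/-- Job THB. -/
theorem thb : S_thb := by
  intro g lam q hg hl hq he hH
  have h1 := pz_star hg hl
  have h2 : pz g 1 = 1 / (1 + g) := rfl
  unfold th za zb
  rw [← he, min_self, max_self]
  rcases le_total (g / (lam - 1)) 1 with h | h
  · rw [min_eq_right h, max_eq_left h, h1, h2, min_eq_left hH]
  · rw [min_eq_left h, max_eq_right h, h1, h2, min_eq_right hH]

lemma r0_ge {lam gam : ℝ} (hl : 1 ≤ lam) (hg : 1 < gam) : (((-1 : ℝ)) : EReal) ≤ r0 lam gam := by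
  unfold r0
  split_ifs with h
  · exact le_top
  · have hl' : 1 < lam := lt_of_le_of_ne hl (Ne.symm h)
    rw [EReal.coe_le_coe_iff, le_div_iff₀ (by linarith)]
    linarith

lemma r1_ge {gam q : ℝ} (hq : gam - 1 ≤ q) : (((-1 : ℝ)) : EReal) ≤ r1 gam q := by
  unfold r1
  rw [EReal.coe_le_coe_iff]
  linarith

lemma ent_nonneg {lam gam q : ℝ} (hl : 1 ≤ lam) (hg : 1 < gam) (hq : gam - 1 ≤ q) {y : EReal}
    (hy : y ∈ Icc (min 0 (min (r0 lam gam) (r1 gam q))) (max 0 (max (r0 lam gam) (r1 gam q)))) :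
    0 ≤ Real.binEntropy (p0 gam y) := by
  unfold p0
  split_ifs with h
  · simp
  · have h1 : (((-1 : ℝ)) : EReal) ≤ y := by
      refine le_trans (le_min ?_ (le_min (r0_ge hl hg) (r1_ge hq))) hy.1
      have : ((0 : ℝ) : EReal) = 0 := rfl
      rw [← this, EReal.coe_le_coe_iff]
      norm_num
    have hbot : y ≠ ⊥ := by
      intro hb
      rw [hb] at h1
      exact absurd (le_bot_iff.mp h1) (EReal.coe_ne_bot _)
    have h2 : (-1 : ℝ) ≤ y.toReal := by
      have h3 := h1
      rw [← EReal.coe_toReal h hbot, EReal.coe_le_coe_iff] at h3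
      exact h3
    have h4 : 0 < y.toReal + gam := by linarith
    apply Real.binEntropy_nonneg
    · apply div_nonneg
      · linarith
      · exact h4.le
    · rw [div_le_one h4]
      linarith

/-- Job THZ. -/
theorem thz : S_thz := by
  intro lam gam q hl hg hq hc
  unfold theta0
  apply IsLeast.csInf_eq
  refine ⟨?_, ?_⟩
  · rcases hc with hc | hc
    · refine ⟨⊤, ⟨le_top, ?_⟩, ?_⟩
      · have : r0 lam gam = ⊤ := by simp [r0, hc]
        rw [this]
        simp
      · simp [p0]
    · refine ⟨((-1 : ℝ) : EReal), ⟨?_, ?_⟩, ?_⟩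
      · have : r1 gam q = ((-1 : ℝ) : EReal) := by
          unfold r1
          rw [hc]
          congr 1
          ring
        rw [this]
        exact (min_le_right _ _).trans (min_le_right _ _)
      · refine le_trans ?_ (le_max_left _ _)
        have : ((0 : ℝ) : EReal) = 0 := rfl
        rw [← this, EReal.coe_le_coe_iff]
        norm_num
      · have h1 : (((-1 : ℝ)) : EReal) ≠ ⊤ := EReal.coe_ne_top _
        have h2 : p0 gam (((-1 : ℝ)) : EReal) = 0 := by
          unfold p0
          rw [if_neg h1, EReal.toReal_coe]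
          norm_num
        simp only [h2, Real.binEntropy_zero]
  · rintro _ ⟨y, hy, rfl⟩
    exact ent_nonneg hl hg hq hy

lemma coe_min' (a b : ℝ) : ((min a b : ℝ) : EReal) = min (a : EReal) (b : EReal) :=
  EReal.coe_strictMono.monotone.map_min

lemma coe_max' (a b : ℝ) : ((max a b : ℝ) : EReal) = max (a : EReal) (b : EReal) :=
  EReal.coe_strictMono.monotone.map_max

/-- Job THR. -/
theorem thr (h : S_inv) (h1 : S_str) : S_thr := by
  intro lam gam q hl hg hq
  have hg' : 0 < gam - 1 := by linarith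
  have hl1 : lam ≠ 1 := hl.ne'
  have hl2 : lam - 1 ≠ 0 := by linarith
  obtain ⟨hza, -, hst⟩ := h (gam - 1) lam q hg' hl hq
  have hab : za (gam - 1) lam q ≤ zb (gam - 1) lam q := (hst 0 0).1.trans (hst 0 0).2
  have hstr := (h1 (gam - 1) lam q hg' hl hq).1
  have e0 : r0 lam gam = (((gam - 1) / (lam - 1) - 1 : ℝ) : EReal) := by
    unfold r0
    rw [if_neg hl1]
    congr 1
    field_simp
    ring
  have e1 : r1 gam q = ((q - (gam - 1) - 1 : ℝ) : EReal) := by
    unfold r1
    congr 1
    ring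
  have e2 : (0 : EReal) = (((1 : ℝ) - 1 : ℝ) : EReal) := by
    rw [sub_self]
    rfl
  have emin : min 0 (min (r0 lam gam) (r1 gam q)) = ((za (gam - 1) lam q - 1 : ℝ) : EReal) := by
    rw [e0, e1, e2, ← coe_min', ← coe_min']
    unfold za
    rw [min_sub_sub_right, min_sub_sub_right]
  have emax : max 0 (max (r0 lam gam) (r1 gam q)) = ((zb (gam - 1) lam q - 1 : ℝ) : EReal) := by
    rw [e0, e1, e2, ← coe_max', ← coe_max']
    unfold zb
    rw [max_sub_sub_right, max_sub_sub_right]
  have ep : ∀ z : ℝ, p0 gam ((z - 1 : ℝ) : EReal) = pz (gam - 1) z := by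
    intro z
    unfold p0 pz
    rw [if_neg (EReal.coe_ne_top _), EReal.toReal_coe]
    congr 1
    · ring
    · ring
  unfold theta0
  rw [emin, emax]
  apply IsLeast.csInf_eq
  refine ⟨?_, ?_⟩
  · unfold th
    rcases min_choice (Real.binEntropy (pz (gam - 1) (za (gam - 1) lam q)))
      (Real.binEntropy (pz (gam - 1) (zb (gam - 1) lam q))) with hc | hc
    · rw [hc]
      refine ⟨((za (gam - 1) lam q - 1 : ℝ) : EReal), ⟨le_refl _, ?_⟩, ?_⟩
      · rw [EReal.coe_le_coe_iff]
        linarith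
      · simp only [ep]
    · rw [hc]
      refine ⟨((zb (gam - 1) lam q - 1 : ℝ) : EReal), ⟨?_, le_refl _⟩, ?_⟩
      · rw [EReal.coe_le_coe_iff]
        linarith
      · simp only [ep]
  · rintro _ ⟨y, ⟨hy1, hy2⟩, rfl⟩
    have ht : y ≠ ⊤ := by
      intro hb
      rw [hb] at hy2
      exact absurd (top_le_iff.mp hy2) (EReal.coe_ne_top _)
    have hbt : y ≠ ⊥ := by
      intro hb
      rw [hb] at hy1
      exact absurd (le_bot_iff.mp hy1) (EReal.coe_ne_bot _)
    obtain ⟨w, rfl⟩ : ∃ w : ℝ, y = ((w - 1 : ℝ) : EReal) :=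
      ⟨y.toReal + 1, by rw [add_sub_cancel_right, EReal.coe_toReal ht hbt]⟩
    rw [EReal.coe_le_coe_iff] at hy1 hy2
    simp only [ep]
    exact hstr w ⟨by linarith, by linarith⟩

end Pool.Agent.Q186.MD
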